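import Pool.Agent.H38.O1.N3

set_option autoImplicit false

/-!
In an automorphic loop `η = [th(a,b), T_b]` commutes with all its conjugates by the reflections `D_t`
(helper77).
-/

namespace ALoop

open Equiv

variable {Q : Type*} {G : Subgroup (Perm Q)} {L : Q → Perm Q} {J : Perm Q} {e : Q}

namespace AL0

/-- conjugation of right translations by inner mappings -/
theorem equiR (h : AL0 G L J e) {g : Perm Q} (hg : g ∈ G) (he : g e = e) (x : Q) :
    g * Rt L J x * g⁻¹ = Rt L J (g x) := by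
  have h1 := h.comJ g hg he
  have h2 : g (J x) = J (g x) := by
    have := congrArg (fun p : Perm Q => p x) h1
    simpa only [Perm.mul_apply] using this
  have h3 := h.equi g hg he (J x)
  have h4 : J * g⁻¹ = g⁻¹ * J := by
    calc J * g⁻¹ = g⁻¹ * (g * J) * g⁻¹ := by group
      _ = g⁻¹ * (J * g) * g⁻¹ := by rw [h1]
      _ = g⁻¹ * J := by group
  unfold Rt
  rw [← h2, ← h3]
  calc g * (J * L (J x) * J) * g⁻¹ = (g * J) * L (J x) * (J * g⁻¹) := by group
    _ = (J * g) * L (J x) * (g⁻¹ * J) := by rw [h1, h4]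
    _ = J * (g * L (J x) * g⁻¹) * J := by group

theorem equiT (h : AL0 G L J e) {g : Perm Q} (hg : g ∈ G) (he : g e = e) (x : Q) :
    g * Tx L J x * g⁻¹ = Tx L J (g x) := by
  unfold Tx
  rw [← h.equi g hg he x, ← h.equiR hg he x]
  group

theorem equiTh (h : AL0 G L J e) {g : Perm Q} (hg : g ∈ G) (he : g e = e) (a b : Q) :
    g * Th L J a b * g⁻¹ = Th L J (g a) (g b) := by
  unfold Th
  rw [← h.equi g hg he a, ← h.equiR hg he b]
  group

/-- `th(v, w)` fixes `s` if `v` is in `N_s` -/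
theorem Th_fix1 (h : AL0 G L J e) {s v : Q} (hv : Nsp L s v) (w : Q) : Th L J v w s = s := by
  unfold Th
  simp only [Perm.mul_apply]
  rw [h.Rt_app, Perm.inv_eq_iff_eq, Perm.inv_eq_iff_eq, h.Rt_app, ← (show L v * L s = L (L v s) from hv),
    Perm.mul_apply]

/-- `th(v, w)` fixes `s` if `w` is in `N_s` -/
theorem Th_fix2 (h : AL0 G L J e) {s w : Q} (hw : Nsp L s w) (v : Q) : Th L J v w s = s := by
  have h1 := h.Th_fix1 (h.Nsp_inv hw) (J v)
  rw [h.Th_inv, Perm.inv_eq_iff_eq] at h1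
  exact h1.symm

/-- `N_s` contains `T_u x` together with `u` and `x` -/
theorem Nsp_T (h : AL0 G L J e) {s u x : Q} (hu : Nsp L s u) (hx : Nsp L s x) :
    Nsp L s (Tx L J u x) := by
  rw [h.Nsp_iff] at hu hx ⊢
  intro y
  obtain ⟨h1, h2⟩ := h.Nsp_r s y
  obtain ⟨g, hg⟩ : ∃ g, g = (Rt L J (L s y))⁻¹ * Rt L J y * Rt L J s := ⟨_, rfl⟩
  have hu' := hu y
  have hx' := hx y
  rw [← hg] at h1 h2 hu' hx' ⊢
  have h3 := h.equiT h1 h2 u
  rw [hu'] at h3
  have h4 : g * Tx L J u = Tx L J u * g := by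
    calc g * Tx L J u = (g * Tx L J u * g⁻¹) * g := by group
      _ = _ := by rw [h3]
  have h5 := congrArg (fun p : Perm Q => p x) h4
  simp only [Perm.mul_apply] at h5
  rw [h5, hx']

/-- `N_s` contains the commutators of its elements -/
theorem Nsp_s (h : AL0 G L J e) {s u x : Q} (hu : Nsp L s u) (hx : Nsp L s x) :
    Nsp L s ((L x)⁻¹ (Tx L J u x)) := by
  refine h.Nsp_ldiv hx ?_
  rw [apply_inv']
  exact h.Nsp_T hu hx

/-- helper77 (D) -/
theorem lemD (h : AL0 G L J e) {s v : Q} (hv : Nsp L s v) (hs : Nsp L v s) :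
    L v * Rt L J s = Rt L J s * L v := by
  have h1 : L v * L s = L (L v s) := hv
  have h2 : L s * L v = L (L s v) := hs
  have h3 := h.equi (Tx L J s) (h.Tx_mem s) (h.Tx_e s) (L v s)
  have h4 : Tx L J s (L v s) = L s v := by
    unfold Tx
    rw [Perm.mul_apply]
    have h5 : (Rt L J s)⁻¹ (L v s) = v := by rw [Perm.inv_eq_iff_eq, h.Rt_app]
    rw [h5]
  rw [h4, ← h1, ← h2] at h3
  have h6 := h.Tx_L s
  have h7 : Tx L J s * L v * (Tx L J s)⁻¹ * L s = L s * L v := by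
    rw [← h3]
    calc Tx L J s * L v * (Tx L J s)⁻¹ * L s =
        Tx L J s * L v * ((Tx L J s)⁻¹ * (L s * Tx L J s) * (Tx L J s)⁻¹) := by group
      _ = Tx L J s * L v * ((Tx L J s)⁻¹ * (Tx L J s * L s) * (Tx L J s)⁻¹) := by rw [h6]
      _ = Tx L J s * (L v * L s) * (Tx L J s)⁻¹ := by group
  have h8 : Tx L J s = L s * (Rt L J s)⁻¹ := rfl
  rw [h8] at h7
  calc L v * Rt L J s = Rt L J s * (L s)⁻¹ *
        (L s * (Rt L J s)⁻¹ * L v * (L s * (Rt L J s)⁻¹)⁻¹ * L s) := by group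
    _ = Rt L J s * (L s)⁻¹ * (L s * L v) := by rw [h7]
    _ = Rt L J s * L v := by group

/-- the commutator `s(u, x) = x \ (T_u x)` -/
def sc (L : Q → Perm Q) (J : Perm Q) (u x : Q) : Q := (L x)⁻¹ (Tx L J u x)

theorem sc_u (h : AL0 G L J e) (u x : Q) : Nsp L (sc L J u x) u := h.N4 u x

theorem sc_x (h : AL0 G L J e) (u x : Q) : Nsp L (sc L J u x) x := h.N3 u x

theorem sc_s (h : AL0 G L J e) (u x : Q) : Nsp L (sc L J u x) (sc L J u x) :=
  h.Nsp_s (h.sc_u u x) (h.sc_x u x)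

theorem Nsp_e' (h : AL0 G L J e) {s : Q} (hs : Nsp L s s) : L (J s) * L s = 1 := by
  have h1 : L (J s) * L s = L (L (J s) s) := h.Nsp_inv hs
  rw [h1, h.JL, ← h.laa_e, h.laa_self]

/-- `J L_s J = R_s⁻¹` for commutators -/
theorem sc_J (h : AL0 G L J e) {s : Q} (hs : Nsp L s s) : J * L s * J = (Rt L J s)⁻¹ := by
  have h1 := h.Nsp_e' hs
  rw [eq_inv_iff_mul_eq_one]
  have h2 : L s * L (J s) = 1 := by
    rw [h.LLJ, h1]
  unfold Rt
  calc J * L s * J * (J * L (J s) * J) = J * L s * (J * J) * L (J s) * J := by group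
    _ = J * (L s * L (J s)) * J := by rw [h.JJ1]; group
    _ = 1 := by rw [h2, mul_one, h.JJ1]

theorem equi_sc (h : AL0 G L J e) {g : Perm Q} (hg : g ∈ G) (he : g e = e) (u x : Q) :
    g (sc L J u x) = sc L J (g u) (g x) := by
  unfold sc
  rw [← h.equi g hg he x, ← h.equiT hg he u]
  simp only [Perm.mul_apply, mul_inv_rev, inv_inv, inv_apply']

/-- `L_t⁻¹ T_u L_t = L_s T_u` -/
theorem LTL (h : AL0 G L J e) (u t : Q) :
    (L t)⁻¹ * Tx L J u * L t = L (sc L J u t) * Tx L J u := by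
  have h1 : L t * L (sc L J u t) = L (L t (sc L J u t)) := h.sc_x u t
  have h2 : L t (sc L J u t) = Tx L J u t := by unfold sc; rw [apply_inv']
  have h3 := h.equi (Tx L J u) (h.Tx_mem u) (h.Tx_e u) t
  rw [h2, ← h3] at h1
  calc (L t)⁻¹ * Tx L J u * L t = (L t)⁻¹ * (Tx L J u * L t * (Tx L J u)⁻¹) * Tx L J u := by group
    _ = (L t)⁻¹ * (L t * L (sc L J u t)) * Tx L J u := by rw [h1]
    _ = _ := by group

/-- helper77's theorem: `eta = [th(a,b), T_b]` commutes with `D_t eta D_t` -/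
theorem heta (h : AL0 G L J e) (a b t : Q) {eta : Perm Q}
    (heta : eta = Th L J a b * Tx L J b * (Th L J a b)⁻¹ * (Tx L J b)⁻¹) :
    eta * ((L t * J * (L t)⁻¹) * eta * (L t * J * (L t)⁻¹)) =
      ((L t * J * (L t)⁻¹) * eta * (L t * J * (L t)⁻¹)) * eta := by
  obtain ⟨th, hth⟩ : ∃ th, th = Th L J a b := ⟨_, rfl⟩
  obtain ⟨s1, hs1⟩ : ∃ s1, s1 = sc L J b t := ⟨_, rfl⟩
  obtain ⟨s2, hs2⟩ : ∃ s2, s2 = sc L J (th b) t := ⟨_, rfl⟩
  have hthG : th ∈ G := by rw [hth]; exact h.Th_mem a b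
  have hthe : th e = e := by rw [hth]; exact h.Th_e a b
  have hthiG : th⁻¹ ∈ G := G.inv_mem hthG
  have hthie : th⁻¹ e = e := by rw [Perm.inv_eq_iff_eq, hthe]
  -- (A)
  have hA : ∀ x, th (sc L J b x) = sc L J b x := by
    intro x; rw [hth]; exact h.Th_fix2 (h.sc_u b x) a
  have hA' : ∀ x, Th L J (Tx L J b a) b (sc L J b x) = sc L J b x := fun x =>
    h.Th_fix2 (h.sc_u b x) _
  have hT : Tx L J b * th * (Tx L J b)⁻¹ = Th L J (Tx L J b a) b := by
    have h1 := h.equiTh (h.Tx_mem b) (h.Tx_e b) a b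
    rw [h.Tx_x] at h1
    rw [hth]; exact h1
  have he1 : eta = th * (Th L J (Tx L J b a) b)⁻¹ := by
    rw [heta, ← hth, ← hT]; group
  have hetaG : eta ∈ G := by
    rw [he1]; exact G.mul_mem hthG (G.inv_mem (h.Th_mem _ _))
  have hetae : eta e = e := by
    rw [he1, Perm.mul_apply]
    have h1 : (Th L J (Tx L J b a) b)⁻¹ e = e := by rw [Perm.inv_eq_iff_eq, h.Th_e]
    rw [h1, hthe]
  have hetas : ∀ x, eta (sc L J b x) = sc L J b x := by
    intro x
    rw [he1, Perm.mul_apply]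
    have h1 : (Th L J (Tx L J b a) b)⁻¹ (sc L J b x) = sc L J b x := by
      rw [Perm.inv_eq_iff_eq, hA']
    rw [h1, hA]
  have he2 : Tx L J (th b) = eta * Tx L J b := by
    rw [← h.equiT hthG hthe b, heta, ← hth]; group
  have hs2' : s2 = sc L J b (th⁻¹ t) := by
    have h1 := h.equi_sc hthG hthe b (th⁻¹ t)
    rw [apply_inv', hA] at h1
    rw [hs2, h1]
  have f1 : eta s1 = s1 := by rw [hs1]; exact hetas t
  have f2 : eta s2 = s2 := by rw [hs2']; exact hetas _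
  have t1 : th s1 = s1 := by rw [hs1]; exact hA t
  have t2 : th s2 = s2 := by rw [hs2']; exact hA _
  have t2' : th⁻¹ s2 = s2 := by rw [Perm.inv_eq_iff_eq, t2]
  -- (C)
  have n1b : Nsp L s1 b := by rw [hs1]; exact h.sc_u b t
  have n1t : Nsp L s1 t := by rw [hs1]; exact h.sc_x b t
  have n1b' : Nsp L s1 (th b) := by
    have h1 := h.Nsp_inn hthG hthe n1b
    rwa [t1] at h1
  have n2b' : Nsp L s2 (th b) := by rw [hs2]; exact h.sc_u _ t
  have n2t : Nsp L s2 t := by rw [hs2]; exact h.sc_x _ t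
  have n2b : Nsp L s2 b := by
    have h1 := h.Nsp_inn hthiG hthie n2b'
    rw [t2', inv_apply'] at h1
    exact h1
  have n12 : Nsp L s1 s2 := by
    have h1 := h.Nsp_s n1b' n1t
    rw [hs2]; exact h1
  have n21 : Nsp L s2 s1 := by
    have h1 := h.Nsp_s n2b n2t
    rw [hs1]; exact h1
  have n11 : Nsp L s1 s1 := by rw [hs1]; exact h.sc_s b t
  have n22 : Nsp L s2 s2 := by rw [hs2]; exact h.sc_s _ t
  have c12 : L s2 * Rt L J s1 = Rt L J s1 * L s2 := h.lemD n12 n21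
  have c21 : L s1 * Rt L J s2 = Rt L J s2 * L s1 := h.lemD n21 n12
  have c11 : L s1 * Rt L J s1 = Rt L J s1 * L s1 := h.flex s1
  have c22 : L s2 * Rt L J s2 = Rt L J s2 * L s2 := h.flex s2
  have j1 := h.sc_J n11
  have j2 := h.sc_J n22
  -- (B)
  have l1 : eta * L s1 = L s1 * eta := h.comL hetaG hetae f1
  have l2 : eta * L s2 = L s2 * eta := h.comL hetaG hetae f2
  have r1 : eta * Rt L J s1 = Rt L J s1 * eta := h.comR hetaG hetae f1
  have r2 : eta * Rt L J s2 = Rt L J s2 * eta := h.comR hetaG hetae f2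
  have hJe := h.comJ eta hetaG hetae
  have b1 : (L t)⁻¹ * eta * L t = eta * (L s2 * (L s1)⁻¹) := by
    have h1 := h.LTL (th b) t
    have h2 := h.LTL b t
    rw [← hs2, he2] at h1
    rw [← hs1] at h2
    calc (L t)⁻¹ * eta * L t =
        ((L t)⁻¹ * (eta * Tx L J b) * L t) * ((L t)⁻¹ * Tx L J b * L t)⁻¹ := by group
      _ = (L s2 * (eta * Tx L J b)) * (L s1 * Tx L J b)⁻¹ := by rw [h1, h2]
      _ = (L s2 * eta) * (L s1)⁻¹ := by group
      _ = (eta * L s2) * (L s1)⁻¹ := by rw [l2]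
      _ = _ := by group
  have b2 : (L t)⁻¹ * ((L t * J * (L t)⁻¹) * eta * (L t * J * (L t)⁻¹)) * L t =
      eta * ((Rt L J s2)⁻¹ * Rt L J s1) := by
    calc (L t)⁻¹ * ((L t * J * (L t)⁻¹) * eta * (L t * J * (L t)⁻¹)) * L t =
        J * ((L t)⁻¹ * eta * L t) * J := by group
      _ = J * (eta * (L s2 * (L s1)⁻¹)) * J := by rw [b1]
      _ = (J * eta) * (1 * L s2 * 1 * (L s1)⁻¹ * J) := by group
      _ = (eta * J) * ((1 : Perm Q) * L s2 * (J * J) * (L s1)⁻¹ * J) := by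
          rw [← hJe, h.JJ1]
      _ = eta * (J * L s2 * J) * (J⁻¹ * L s1 * J⁻¹)⁻¹ := by group
      _ = eta * (J * L s2 * J) * (J * L s1 * J)⁻¹ := by rw [h.Jinv]
      _ = eta * ((Rt L J s2)⁻¹ * Rt L J s1) := by rw [j1, j2]; group
  -- the four commutations
  have key : (eta * (L s2 * (L s1)⁻¹)) * (eta * ((Rt L J s2)⁻¹ * Rt L J s1)) =
      (eta * ((Rt L J s2)⁻¹ * Rt L J s1)) * (eta * (L s2 * (L s1)⁻¹)) := by
    have k1 : Commute eta (L s1) := l1
    have k2 : Commute eta (L s2) := l2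
    have k3 : Commute eta (Rt L J s1) := r1
    have k4 : Commute eta (Rt L J s2) := r2
    have k5 : Commute (L s1) (Rt L J s1) := c11
    have k6 : Commute (L s2) (Rt L J s2) := c22
    have k7 : Commute (L s2) (Rt L J s1) := c12
    have k8 : Commute (L s1) (Rt L J s2) := c21
    have m1 : Commute eta (L s2 * (L s1)⁻¹) := k2.mul_right k1.inv_right
    have m2 : Commute eta ((Rt L J s2)⁻¹ * Rt L J s1) := k4.inv_right.mul_right k3
    have m3 : Commute (L s2 * (L s1)⁻¹) ((Rt L J s2)⁻¹ * Rt L J s1) :=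
      (k6.inv_right.mul_right k7).mul_left ((k8.inv_right.mul_right k5).inv_left)
    have m4 : Commute (eta * (L s2 * (L s1)⁻¹)) (eta * ((Rt L J s2)⁻¹ * Rt L J s1)) :=
      (((Commute.refl eta).mul_right m2)).mul_left (m1.symm.mul_right m3)
    exact m4
  rw [← b1, ← b2] at key
  have h9 := congrArg (fun f : Perm Q => L t * f * (L t)⁻¹) key
  calc eta * ((L t * J * (L t)⁻¹) * eta * (L t * J * (L t)⁻¹)) =
      L t * ((L t)⁻¹ * eta * L t * ((L t)⁻¹ *
        ((L t * J * (L t)⁻¹) * eta * (L t * J * (L t)⁻¹)) * L t)) * (L t)⁻¹ := by group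
    _ = L t * ((L t)⁻¹ * ((L t * J * (L t)⁻¹) * eta * (L t * J * (L t)⁻¹)) * L t *
        ((L t)⁻¹ * eta * L t)) * (L t)⁻¹ := h9
    _ = _ := by group

/-- `eta = T_(th b) T_b⁻¹` commutes with all `D_t eta D_t` -/
theorem eta_com (h : AL0 G L J e) (a b t : Q) :
    Commute (Tx L J (Th L J a b b) * (Tx L J b)⁻¹)
      (D L J t * (Tx L J (Th L J a b b) * (Tx L J b)⁻¹) * D L J t) := by
  have h1 := h.equiT (h.Th_mem a b) (h.Th_e a b) b
  exact h.heta a b t (eta := Tx L J (Th L J a b b) * (Tx L J b)⁻¹) (by rw [← h1])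

end AL0

end ALoop
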